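import Pool.Agent.BioW.Block

set_option autoImplicit false
set_option linter.unusedSectionVars false

open Set Filter Topology Metric Submodule TopologicalSpace

namespace Pool.Agent.BioW

variable {𝕜 : Type*} [RCLike 𝕜] {E : Type*} [NormedAddCommGroup E] [NormedSpace 𝕜 E]

theorem himg {m : ℕ → ℕ} (hmlt : ∀ k, m k < m (k + 1)) {V : Type*} (u : ℕ → V) (k : ℕ) :
    (fun j => u (m k + j)) '' Iio (m (k + 1) - m k) = u '' Ico (m k) (m (k + 1)) := by
  have h0 := hmlt k
  ext z
  constructor
  · rintro ⟨j, hj, rfl⟩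
    rw [mem_Iio] at hj
    exact ⟨m k + j, ⟨by omega, by omega⟩, rfl⟩
  · rintro ⟨n, ⟨hn1, hn2⟩, rfl⟩
    refine ⟨n - m k, ?_, ?_⟩
    · rw [mem_Iio]
      omega
    · show u (m k + (n - m k)) = u n
      congr 1
      omega

/-- The main construction. -/
theorem exists_strong (hinf : ¬ FiniteDimensional 𝕜 E) [SeparableSpace (StrongDual 𝕜 E)] :
    ∃ (Y : ℕ → E) (G : ℕ → StrongDual 𝕜 E),
      (∀ i j, G i (Y j) = if i = j then 1 else 0) ∧
      (span 𝕜 (range Y)).topologicalClosure = ⊤ ∧
      (span 𝕜 (range G)).topologicalClosure = ⊤ ∧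
      ∀ φ : StrongDual 𝕜 E, φ ∈ (span 𝕜 (G '' {n | φ (Y n) ≠ 0})).topologicalClosure := by
  classical
  obtain ⟨x, f, hb, hx, hf⟩ := exists_bio (𝕜 := 𝕜) (E := E) hinf
  choose q1 hq1 hq1' using fact1 (𝕜 := 𝕜) (f := f) hx
  choose q2 hq2 hq2' using fact2 (𝕜 := 𝕜) hb hf
  let m : ℕ → ℕ := fun k => Nat.rec 0 (fun _ p => q1 (q2 p)) k
  have hm0 : m 0 = 0 := rfl
  have hmS : ∀ k, m (k + 1) = q1 (q2 (m k)) := fun k => rfl
  let m' : ℕ → ℕ := fun k => q2 (m k)
  have hmm' : ∀ k, m k < m' k := fun k => hq2 (m k)
  have hm'm : ∀ k, m' k < m (k + 1) := fun k => hq1 (m' k)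
  have hmlt : ∀ k, m k < m (k + 1) := fun k => (hmm' k).trans (hm'm k)
  have hmono : StrictMono m := strictMono_nat_of_lt_succ hmlt
  -- block index
  have hblk : ∀ n, ∃ k, m k ≤ n ∧ n < m (k + 1) := by
    intro n
    induction n with
    | zero => exact ⟨0, le_rfl, by have := hmlt 0; omega⟩
    | succ n ih =>
      obtain ⟨k, hk1, hk2⟩ := ih
      by_cases h : n + 1 < m (k + 1)
      · exact ⟨k, by omega, h⟩
      · exact ⟨k + 1, by omega, by have := hmlt (k + 1); omega⟩
  choose blk hblk1 hblk2 using hblk
  have huniq : ∀ n k, m k ≤ n → n < m (k + 1) → blk n = k := by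
    intro n k h1 h2
    have h3 := hblk1 n
    have h4 := hblk2 n
    rcases lt_trichotomy (blk n) k with h | h | h
    · have : m (blk n + 1) ≤ m k := hmono.monotone h
      omega
    · exact h
    · have : m (k + 1) ≤ m (blk n) := hmono.monotone h
      omega
  -- epsilons
  let ε : ℕ → ℝ := fun k => 1 / (((k : ℝ) + 1) * (cst x f (m (k + 1)) + 1))
  have hC : ∀ k, 0 ≤ cst x f (m (k + 1)) := fun k => cst_nonneg _
  have hε : ∀ k, 0 < ε k := by
    intro k
    have := hC k
    positivity
  have hεC : ∀ k, ε k * cst x f (m (k + 1)) ≤ 1 / ((k : ℝ) + 1) := by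
    intro k
    have h0 := hC k
    have hk : (0 : ℝ) < (k : ℝ) + 1 := by positivity
    simp only [ε]
    rw [div_mul_eq_mul_div, one_mul, div_le_div_iff₀ (by positivity) hk]
    nlinarith
  -- flags
  have hflag := fun k => flag (fun j => x (m k + j)) (fun j => f (m k + j)) (m (k + 1) - m k)
    (by
      intro i _ j _
      rw [hb]
      by_cases h : i = j
      · rw [if_pos h, if_pos (by omega)]
      · rw [if_neg h, if_neg (by omega)]) (hε k)
  choose y g hy hg hxy hfg hbyg hM1 hM2 using hflag
  let Y : ℕ → E := fun n => y (blk n) (n - m (blk n))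
  let G : ℕ → StrongDual 𝕜 E := fun n => g (blk n) (n - m (blk n))
  have hYeq : ∀ k i, i < m (k + 1) - m k → Y (m k + i) = y k i := by
    intro k i hi
    have h1 : blk (m k + i) = k := huniq _ _ (by omega) (by omega)
    simp only [Y]
    rw [h1, Nat.add_sub_cancel_left]
  have hGeq : ∀ k i, i < m (k + 1) - m k → G (m k + i) = g k i := by
    intro k i hi
    have h1 : blk (m k + i) = k := huniq _ _ (by omega) (by omega)
    simp only [G]
    rw [h1, Nat.add_sub_cancel_left]
  have hYmem : ∀ n, Y n ∈ span 𝕜 (x '' Ico (m (blk n)) (m (blk n + 1))) := by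
    intro n
    have := hy (blk n) (n - m (blk n))
    rwa [himg hmlt x (blk n)] at this
  have hGmem : ∀ n, G n ∈ span 𝕜 (f '' Ico (m (blk n)) (m (blk n + 1))) := by
    intro n
    have := hg (blk n) (n - m (blk n))
    rwa [himg hmlt f (blk n)] at this
  have hyimg : ∀ k, y k '' Iio (m (k + 1) - m k) = Y '' Ico (m k) (m (k + 1)) := by
    intro k
    rw [← himg hmlt Y k]
    apply image_congr
    intro i hi
    exact (hYeq k i hi).symm
  have hgimg : ∀ k, g k '' Iio (m (k + 1) - m k) = G '' Ico (m k) (m (k + 1)) := by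
    intro k
    rw [← himg hmlt G k]
    apply image_congr
    intro i hi
    exact (hGeq k i hi).symm
  have hxmem : ∀ n, x n ∈ span 𝕜 (Y '' Ico (m (blk n)) (m (blk n + 1))) := by
    intro n
    have h1 := hblk1 n
    have h2 := hblk2 n
    have := hxy (blk n) (n - m (blk n)) (by omega)
    rw [hyimg] at this
    have e : m (blk n) + (n - m (blk n)) = n := by omega
    simpa only [e] using this
  have hfmem : ∀ n, f n ∈ span 𝕜 (G '' Ico (m (blk n)) (m (blk n + 1))) := by
    intro n
    have h1 := hblk1 n
    have h2 := hblk2 n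
    have := hfg (blk n) (n - m (blk n)) (by omega)
    rw [hgimg] at this
    have e : m (blk n) + (n - m (blk n)) = n := by omega
    simpa only [e] using this
  have hbio : ∀ i j, G i (Y j) = if i = j then 1 else 0 := by
    intro i j
    by_cases hij : blk i = blk j
    · have h1 := hblk1 i
      have h2 := hblk2 i
      have h3 := hblk1 j
      have h4 := hblk2 j
      rw [hij] at h1 h2
      have h5 := hbyg (blk j) (i - m (blk j)) (by omega) (j - m (blk j)) (by omega)
      have h6 : G i = g (blk j) (i - m (blk j)) := by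
        simp only [G]
        rw [hij]
      rw [h6]
      show g (blk j) (i - m (blk j)) (y (blk j) (j - m (blk j))) = _
      rw [h5]
      by_cases h : i = j
      · rw [if_pos h, if_pos (by omega)]
      · rw [if_neg h, if_neg (by omega)]
    · have hne : i ≠ j := fun h => hij (by rw [h])
      rw [if_neg hne]
      refine pair_zero hb ?_ (hGmem i) (hYmem j)
      rw [Set.disjoint_left]
      rintro n ⟨h1, h2⟩ ⟨h3, h4⟩
      exact hij ((huniq n _ h1 h2).symm.trans (huniq n _ h3 h4))
  refine ⟨Y, G, hbio, ?_, ?_, ?_⟩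
  · rw [eq_top_iff, ← hx]
    apply Submodule.topologicalClosure_mono
    rw [span_le]
    rintro _ ⟨n, rfl⟩
    exact span_mono (image_subset_range _ _) (hxmem n)
  · rw [eq_top_iff, ← hf]
    apply Submodule.topologicalClosure_mono
    rw [span_le]
    rintro _ ⟨n, rfl⟩
    exact span_mono (image_subset_range _ _) (hfmem n)
  · intro φ
    set Z : Submodule 𝕜 (StrongDual 𝕜 E) := span 𝕜 (G '' {n | φ (Y n) ≠ 0}) with hZ
    -- partial sums lie in Z
    have hSZ : ∀ k, S x f (m k) φ ∈ Z := by
      intro k
      set ψ : StrongDual 𝕜 E := S x f (m k) φ with hψ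
      have hψG : ψ ∈ span 𝕜 (G '' Iio (m k)) := by
        have h1 : span 𝕜 (f '' Iio (m k)) ≤ span 𝕜 (G '' Iio (m k)) := by
          rw [span_le]
          rintro _ ⟨n, hn, rfl⟩
          rw [mem_Iio] at hn
          refine span_mono (image_mono ?_) (hfmem n)
          rintro l ⟨_, hl2⟩
          rw [mem_Iio]
          have h3 : blk n < k := by
            by_contra hcon
            have : m k ≤ m (blk n) := hmono.monotone (not_lt.mp hcon)
            have := hblk1 n
            omega
          have : m (blk n + 1) ≤ m k := hmono.monotone h3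
          omega
        exact h1 (S_mem (m k) φ)
      have h2 : S Y G (m k) ψ = ψ := S_eq_self hbio hψG
      have h3 : S Y G (m k) ψ = S Y G (m k) φ := by
        simp only [S]
        apply Finset.sum_congr rfl
        intro n hn
        rw [Finset.mem_range] at hn
        have h4 : span 𝕜 (x '' Iio (m k)) ≤ LinearMap.ker ((ψ - φ : StrongDual 𝕜 E) : E →ₗ[𝕜] 𝕜) := by
          rw [span_le]
          rintro _ ⟨l, hl, rfl⟩
          rw [mem_Iio] at hl
          show (ψ - φ) (x l) = 0
          rw [_root_.sub_apply, hψ, S_apply hb, if_pos hl, sub_self]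
        have h5 : Y n ∈ span 𝕜 (x '' Iio (m k)) := by
          refine span_mono (image_mono ?_) (hYmem n)
          rintro l ⟨_, hl2⟩
          rw [mem_Iio]
          have h3 : blk n < k := by
            by_contra hcon
            have : m k ≤ m (blk n) := hmono.monotone (not_lt.mp hcon)
            have := hblk1 n
            omega
          have : m (blk n + 1) ≤ m k := hmono.monotone h3
          omega
        have h6 : (ψ - φ) (Y n) = 0 := h4 h5
        rw [_root_.sub_apply, sub_eq_zero] at h6
        rw [h6]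
      rw [← h2, h3]
      apply sum_mem
      intro n _
      by_cases h0 : φ (Y n) = 0
      · rw [h0, d_zero_smul]
        exact zero_mem _
      · exact smul_mem _ _ (subset_span ⟨n, h0, rfl⟩)
    -- approximation
    have hcl : φ ∈ closure (span 𝕜 (range f) : Set (StrongDual 𝕜 E)) := by
      have : φ ∈ (span 𝕜 (range f)).topologicalClosure := by rw [hf]; trivial
      exact this
    have hgoal : φ ∈ closure (Z : Set (StrongDual 𝕜 E)) := by
      rw [Metric.mem_closure_iff]
      intro η hη
      obtain ⟨w, hw, hφw⟩ := Metric.mem_closure_iff.mp hcl (η / 4) (by positivity)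
      rw [dist_eq_norm] at hφw
      obtain ⟨r, hr⟩ := mem_span_Iio hw
      obtain ⟨k₀, hk₀⟩ := exists_nat_gt ((‖φ‖ + η / 4) / (η / 4))
      set k := max r k₀ with hk
      have hrk : r ≤ m k := (le_max_left r k₀).trans hmono.le_apply
      have hwk : w ∈ span 𝕜 (f '' Iio (m k)) := span_mono (image_mono (Iio_subset_Iio hrk)) hr
      have hksmall : 1 / ((k : ℝ) + 1) * (‖φ‖ + η / 4) < η / 4 := by
        have h1 : (‖φ‖ + η / 4) / (η / 4) < (k : ℝ) + 1 := by
          have : (k₀ : ℝ) ≤ (k : ℝ) := by exact_mod_cast le_max_right r k₀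
          linarith
        rw [div_lt_iff₀ (by positivity)] at h1
        rw [div_mul_eq_mul_div, one_mul, div_lt_iff₀ (by positivity)]
        linarith
      -- the block
      set a := m (k + 1) - m k with ha
      let M : Finset ℕ := (Finset.range a).filter fun i => φ (Y (m k + i)) ≠ 0
      have hMa : M ⊆ Finset.range a := Finset.filter_subset _ _
      obtain ⟨h, hhZ, hh⟩ := block hb (hmm' k).le (hm'm k).le (hq2' (m k)) (hq1' (m' k)) φ Z
        (hSZ k) (s := m k + M.card) (hε k).le (by
          intro n hn1 hn2 hn3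
          obtain ⟨h, hh, hh'⟩ := hM1 k M hMa (n - m k) (by omega)
          refine ⟨h, ?_, ?_⟩
          · refine span_mono ?_ hh
            rintro _ ⟨i, hi, rfl⟩
            have hi' := Finset.mem_filter.mp (show i ∈ M from hi)
            have hia := Finset.mem_range.mp hi'.1
            exact ⟨m k + i, hi'.2, hGeq k i hia⟩
          · have e : m k + (n - m k) = n := by omega
            simpa only [e] using hh') (by
          intro n hn1 hn2 hn3
          obtain ⟨z, hz, hz'⟩ := hM2 k M hMa (n - m k) (by omega) (by omega)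
          have e : m k + (n - m k) = n := by omega
          simp only [e] at hz'
          have hφz : φ z = 0 := by
            have hle : span 𝕜 (y k '' {i | i < m (k + 1) - m k ∧ i ∉ M}) ≤
                LinearMap.ker (φ : E →ₗ[𝕜] 𝕜) := by
              rw [span_le]
              rintro _ ⟨i, ⟨hi1, hi2⟩, rfl⟩
              show φ (y k i) = 0
              rw [← hYeq k i hi1]
              by_contra hne
              exact hi2 (Finset.mem_filter.mpr ⟨Finset.mem_range.mpr hi1, hne⟩)
            exact hle hz
          calc ‖φ (x n)‖ = ‖φ (x n - z)‖ := by rw [map_sub, hφz, sub_zero]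
            _ ≤ ‖φ‖ * ‖x n - z‖ := φ.le_opNorm _
            _ ≤ ‖φ‖ * ε k := by gcongr
            _ = ε k * ‖φ‖ := mul_comm _ _) hwk hφw.le
      refine ⟨h, hhZ, ?_⟩
      rw [dist_eq_norm]
      calc ‖φ - h‖ ≤ 3 * (η / 4) + ε k * cst x f (m (k + 1)) * (‖φ‖ + η / 4) := hh
        _ ≤ 3 * (η / 4) + 1 / ((k : ℝ) + 1) * (‖φ‖ + η / 4) := by
            gcongr
            exact hεC k
        _ < η := by linarith
    exact hgoal

end Pool.Agent.BioW
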