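import Pool.Agent.BioW.Flag

set_option autoImplicit false
set_option linter.unusedSectionVars false

open Set Filter Topology Metric Submodule TopologicalSpace

namespace Pool.Agent.BioW

variable {𝕜 : Type*} [RCLike 𝕜] {E : Type*} [NormedAddCommGroup E] [NormedSpace 𝕜 E]

section

variable {x : ℕ → E} {f : ℕ → StrongDual 𝕜 E}

/-- expansion of an element of the span of finitely many functionals -/
theorem expand (hb : ∀ i j, f i (x j) = if i = j then 1 else 0) (s : Finset ℕ)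
    {v : StrongDual 𝕜 E} (hv : v ∈ span 𝕜 (f '' (s : Set ℕ))) :
    ∑ n ∈ s, v (x n) • f n = v := by
  induction hv using Submodule.span_induction with
  | mem z hz =>
    obtain ⟨n, hn, rfl⟩ := hz
    rw [Finset.sum_eq_single n]
    · rw [hb, if_pos rfl, d_one_smul]
    · intro j _ hj
      rw [hb, if_neg (Ne.symm hj), d_zero_smul]
    · intro h
      exact absurd hn h
  | zero =>
    apply Finset.sum_eq_zero
    intro n _
    rw [_root_.zero_apply, d_zero_smul]
  | add a b _ _ ha hb' =>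
    simp only [_root_.add_apply, d_add_smul, Finset.sum_add_distrib]
    rw [ha, hb']
  | smul c a _ ha =>
    simp only [_root_.smul_apply, smul_eq_mul, d_mul_smul, ← Finset.smul_sum]
    rw [ha]

theorem pair_zero (hb : ∀ i j, f i (x j) = if i = j then 1 else 0) {A B : Set ℕ}
    (hAB : Disjoint A B) {g : StrongDual 𝕜 E} (hg : g ∈ span 𝕜 (f '' A)) {y : E}
    (hy : y ∈ span 𝕜 (x '' B)) : g y = 0 := by
  induction hg using Submodule.span_induction with
  | mem z hz =>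
    obtain ⟨n, hn, rfl⟩ := hz
    have hle : span 𝕜 (x '' B) ≤ LinearMap.ker (f n : E →ₗ[𝕜] 𝕜) := by
      rw [span_le]
      rintro _ ⟨j, hj, rfl⟩
      show f n (x j) = 0
      rw [hb, if_neg]
      rintro rfl
      exact Set.disjoint_left.mp hAB hn hj
    exact hle hy
  | zero => rfl
  | add a b _ _ ha hb' => rw [_root_.add_apply, ha, hb', add_zero]
  | smul c a _ ha => rw [_root_.smul_apply, ha, smul_zero]

theorem S_split {p q : ℕ} (h : p ≤ q) (φ : StrongDual 𝕜 E) :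
    S x f q φ = S x f p φ + ∑ n ∈ Finset.Ico p q, φ (x n) • f n := by
  rw [S, S, Finset.sum_range_add_sum_Ico _ h]

/-- the constant -/
noncomputable def cst (x : ℕ → E) (f : ℕ → StrongDual 𝕜 E) (q : ℕ) : ℝ :=
  (2 + ∑ n ∈ Finset.range q, ‖x n‖ * ‖f n‖) * (∑ n ∈ Finset.range q, ‖x n‖) +
    3 * (∑ n ∈ Finset.range q, ‖f n‖) + ∑ n ∈ Finset.range q, ‖x n‖

theorem cst_nonneg (q : ℕ) : 0 ≤ cst x f q := by
  unfold cst
  have h1 : 0 ≤ ∑ n ∈ Finset.range q, ‖x n‖ * ‖f n‖ :=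
    Finset.sum_nonneg fun _ _ => by positivity
  have h2 : 0 ≤ ∑ n ∈ Finset.range q, ‖x n‖ := Finset.sum_nonneg fun _ _ => by positivity
  have h3 : 0 ≤ ∑ n ∈ Finset.range q, ‖f n‖ := Finset.sum_nonneg fun _ _ => by positivity
  positivity

theorem block (hb : ∀ i j, f i (x j) = if i = j then 1 else 0) {p p' q : ℕ}
    (hpp : p ≤ p') (hpq : p' ≤ q)
    (F2 : ∀ φ : StrongDual 𝕜 E, ∃ v ∈ span 𝕜 (f '' Ico p p'), ‖S x f p φ + v‖ ≤ 2 * ‖φ‖)
    (F1 : ∀ h ∈ span 𝕜 (f '' Iio p'), ∀ w : StrongDual 𝕜 E, (∀ n < q, w (x n) = 0) →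
      ‖h‖ ≤ 2 * ‖h + w‖)
    (φ : StrongDual 𝕜 E) (Y : Submodule 𝕜 (StrongDual 𝕜 E)) (hSY : S x f p φ ∈ Y)
    {s : ℕ} {ε : ℝ} (hε : 0 ≤ ε)
    (hF : ∀ n, p ≤ n → n < s → n < q → ∃ h ∈ Y, ‖f n - h‖ ≤ ε)
    (hX : ∀ n, p ≤ n → s ≤ n → n < q → ‖φ (x n)‖ ≤ ε * ‖φ‖)
    {g : StrongDual 𝕜 E} (hg : g ∈ span 𝕜 (f '' Iio p)) {δ : ℝ} (hδ : ‖φ - g‖ ≤ δ) :
    ∃ h ∈ Y, ‖φ - h‖ ≤ 3 * δ + ε * cst x f q * (‖φ‖ + δ) := by
  classical
  have hδ0 : 0 ≤ δ := (norm_nonneg _).trans hδ
  set ψ : StrongDual 𝕜 E := φ - g with hψ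
  set N : ℝ := ∑ n ∈ Finset.range q, ‖x n‖ * ‖f n‖ with hN
  set X : ℝ := ∑ n ∈ Finset.range q, ‖x n‖ with hXs
  set Fs : ℝ := ∑ n ∈ Finset.range q, ‖f n‖ with hFs
  have hN0 : 0 ≤ N := Finset.sum_nonneg fun _ _ => by positivity
  have hX0 : 0 ≤ X := Finset.sum_nonneg fun _ _ => by positivity
  have hF0 : 0 ≤ Fs := Finset.sum_nonneg fun _ _ => by positivity
  have hcst : cst x f q = (2 + N) * X + 3 * Fs + X := rfl
  have hSpg : S x f p g = g := S_eq_self hb hg
  have hSp'g : S x f p' g = g := S_mono hb hpp hg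
  -- approximants
  have happ : ∀ n, ∃ h ∈ Y, (p ≤ n → n < s → n < q → ‖f n - h‖ ≤ ε) ∧ (s ≤ n → h = 0) := by
    intro n
    by_cases hn : p ≤ n ∧ n < s ∧ n < q
    · obtain ⟨h, hh, hh'⟩ := hF n hn.1 hn.2.1 hn.2.2
      exact ⟨h, hh, fun _ _ _ => hh', fun hsn => absurd hsn (not_le.mpr hn.2.1)⟩
    · exact ⟨0, zero_mem _, fun h1 h2 h3 => absurd ⟨h1, h2, h3⟩ hn, fun _ => rfl⟩
  choose hh hhY hh1 hh2 using happ
  have hIcoX : ∑ n ∈ Finset.Ico p p', ‖x n‖ ≤ X := by
    apply Finset.sum_le_sum_of_subset_of_nonneg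
    · intro n hn
      rw [Finset.mem_Ico] at hn
      exact Finset.mem_range.mpr (by omega)
    · intro _ _ _
      positivity
  by_cases hcase : p' ≤ s
  · -- case 1
    obtain ⟨v, hv, hvn⟩ := F2 ψ
    have hvn' : ‖S x f p ψ + v‖ ≤ 2 * δ := hvn.trans (by gcongr)
    have hve : ∑ n ∈ Finset.Ico p p', v (x n) • f n = v :=
      expand hb (Finset.Ico p p') (by simpa using hv)
    have hvnorm : ‖v‖ ≤ (2 + N) * δ := by
      have h1 : ‖S x f p ψ‖ ≤ N * δ := by
        refine (S_norm p ψ).trans ?_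
        gcongr
        apply Finset.sum_le_sum_of_subset_of_nonneg
        · exact Finset.range_subset_range.mpr (hpp.trans hpq)
        · intro _ _ _
          positivity
      calc ‖v‖ = ‖(S x f p ψ + v) - S x f p ψ‖ := by rw [add_sub_cancel_left]
        _ ≤ ‖S x f p ψ + v‖ + ‖S x f p ψ‖ := norm_sub_le _ _
        _ ≤ (2 + N) * δ := by linarith
    refine ⟨S x f p φ + ∑ n ∈ Finset.Ico p p', v (x n) • hh n,
      add_mem hSY (sum_mem fun n _ => smul_mem _ _ (hhY n)), ?_⟩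
    have e : φ - (S x f p φ + ∑ n ∈ Finset.Ico p p', v (x n) • hh n) =
        ψ - (S x f p ψ + v) + ∑ n ∈ Finset.Ico p p', v (x n) • (f n - hh n) := by
      simp only [smul_sub, Finset.sum_sub_distrib]
      rw [hve, hψ, S_sub, hSpg]
      abel
    rw [e]
    have h2 : ‖∑ n ∈ Finset.Ico p p', v (x n) • (f n - hh n)‖ ≤ ε * (‖v‖ * X) := by
      calc _ ≤ ∑ n ∈ Finset.Ico p p', ‖v (x n) • (f n - hh n)‖ := norm_sum_le _ _
        _ ≤ ∑ n ∈ Finset.Ico p p', ε * (‖v‖ * ‖x n‖) := by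
            apply Finset.sum_le_sum
            intro n hn
            rw [Finset.mem_Ico] at hn
            rw [norm_smul]
            have h3 := hh1 n hn.1 (by omega) (by omega)
            have h4 := v.le_opNorm (x n)
            calc ‖v (x n)‖ * ‖f n - hh n‖ ≤ (‖v‖ * ‖x n‖) * ε := by gcongr
              _ = _ := by ring
        _ = ε * (‖v‖ * ∑ n ∈ Finset.Ico p p', ‖x n‖) := by
            rw [← Finset.mul_sum, ← Finset.mul_sum]
        _ ≤ ε * (‖v‖ * X) := by gcongr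
    calc _ ≤ ‖ψ - (S x f p ψ + v)‖ + ‖∑ n ∈ Finset.Ico p p', v (x n) • (f n - hh n)‖ :=
          norm_add_le _ _
      _ ≤ (‖ψ‖ + ‖S x f p ψ + v‖) + ε * (‖v‖ * X) := by
          gcongr
          exact norm_sub_le _ _
      _ ≤ (δ + 2 * δ) + ε * (((2 + N) * δ) * X) := by gcongr
      _ ≤ 3 * δ + ε * cst x f q * (‖φ‖ + δ) := by
          rw [hcst]
          have h5 : (2 + N) * δ * X ≤ ((2 + N) * X + 3 * Fs + X) * (‖φ‖ + δ) := by
            have hp := norm_nonneg φ
            have : 0 ≤ (2 + N) * X * ‖φ‖ + (3 * Fs + X) * (‖φ‖ + δ) := by positivity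
            nlinarith
          have h6 : ε * ((2 + N) * δ * X) ≤ ε * (((2 + N) * X + 3 * Fs + X) * (‖φ‖ + δ)) := by
            gcongr
          linarith
  · -- case 2
    have hsp' : s < p' := not_le.mp hcase
    have hψx : ∀ n, p ≤ n → ψ (x n) = φ (x n) := by
      intro n hn
      have : g (x n) = 0 := pair_zero hb (A := Iio p) (B := {n}) (by
        rw [Set.disjoint_singleton_right]
        exact not_lt.mpr hn) hg (subset_span ⟨n, rfl, rfl⟩)
      rw [hψ, _root_.sub_apply, this, sub_zero]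
    set T : StrongDual 𝕜 E := ∑ n ∈ Finset.Ico p' q, ψ (x n) • f n with hT
    have hTn : ‖T‖ ≤ ε * ‖φ‖ * Fs := by
      calc ‖T‖ ≤ ∑ n ∈ Finset.Ico p' q, ‖ψ (x n) • f n‖ := norm_sum_le _ _
        _ ≤ ∑ n ∈ Finset.Ico p' q, ε * ‖φ‖ * ‖f n‖ := by
            apply Finset.sum_le_sum
            intro n hn
            rw [Finset.mem_Ico] at hn
            rw [norm_smul, hψx n (by omega)]
            gcongr
            exact hX n (by omega) (by omega) (by omega)
        _ = ε * ‖φ‖ * ∑ n ∈ Finset.Ico p' q, ‖f n‖ := by rw [← Finset.mul_sum]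
        _ ≤ ε * ‖φ‖ * Fs := by
            gcongr
            apply Finset.sum_le_sum_of_subset_of_nonneg
            · intro n hn
              rw [Finset.mem_Ico] at hn
              exact Finset.mem_range.mpr (by omega)
            · intro _ _ _
              positivity
    have hSp'ψ : ‖S x f p' ψ‖ ≤ 2 * (δ + ε * ‖φ‖ * Fs) := by
      have h1 := F1 (S x f p' ψ) (S_mem p' ψ) (ψ - S x f q ψ) (by
        intro n hn
        rw [_root_.sub_apply, S_apply hb, if_pos hn, sub_self])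
      have e : S x f p' ψ + (ψ - S x f q ψ) = ψ - T := by
        rw [S_split hpq ψ]
        abel
      rw [e] at h1
      refine h1.trans ?_
      gcongr
      exact (norm_sub_le _ _).trans (add_le_add hδ hTn)
    refine ⟨S x f p φ + ∑ n ∈ Finset.Ico p p', φ (x n) • hh n,
      add_mem hSY (sum_mem fun n _ => smul_mem _ _ (hhY n)), ?_⟩
    have e : φ - (S x f p φ + ∑ n ∈ Finset.Ico p p', φ (x n) • hh n) =
        ψ - S x f p' ψ + ∑ n ∈ Finset.Ico p p', φ (x n) • (f n - hh n) := by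
      simp only [smul_sub, Finset.sum_sub_distrib]
      rw [hψ, S_sub, hSp'g, S_split hpp φ]
      abel
    rw [e]
    have h2 : ‖∑ n ∈ Finset.Ico p p', φ (x n) • (f n - hh n)‖ ≤ ε * ‖φ‖ * (X + Fs) := by
      calc _ ≤ ∑ n ∈ Finset.Ico p p', ‖φ (x n) • (f n - hh n)‖ := norm_sum_le _ _
        _ ≤ ∑ n ∈ Finset.Ico p p', ε * ‖φ‖ * (‖x n‖ + ‖f n‖) := by
            apply Finset.sum_le_sum
            intro n hn
            rw [Finset.mem_Ico] at hn
            rw [norm_smul]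
            by_cases hns : n < s
            · have h3 := hh1 n hn.1 hns (by omega)
              have h4 := φ.le_opNorm (x n)
              calc ‖φ (x n)‖ * ‖f n - hh n‖ ≤ (‖φ‖ * ‖x n‖) * ε := by gcongr
                _ ≤ ε * ‖φ‖ * (‖x n‖ + ‖f n‖) := by
                  have : 0 ≤ ε * ‖φ‖ * ‖f n‖ := by positivity
                  nlinarith
            · have h3 := hh2 n (not_lt.mp hns)
              rw [h3, sub_zero]
              have h4 := hX n hn.1 (not_lt.mp hns) (by omega)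
              calc ‖φ (x n)‖ * ‖f n‖ ≤ (ε * ‖φ‖) * ‖f n‖ := by gcongr
                _ ≤ ε * ‖φ‖ * (‖x n‖ + ‖f n‖) := by
                  gcongr
                  linarith [norm_nonneg (x n)]
        _ = ε * ‖φ‖ * (∑ n ∈ Finset.Ico p p', ‖x n‖ + ∑ n ∈ Finset.Ico p p', ‖f n‖) := by
            rw [← Finset.mul_sum, Finset.sum_add_distrib]
        _ ≤ ε * ‖φ‖ * (X + Fs) := by
            gcongr
            apply Finset.sum_le_sum_of_subset_of_nonneg
            · intro n hn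
              rw [Finset.mem_Ico] at hn
              exact Finset.mem_range.mpr (by omega)
            · intro _ _ _
              positivity
    calc _ ≤ ‖ψ - S x f p' ψ‖ + ‖∑ n ∈ Finset.Ico p p', φ (x n) • (f n - hh n)‖ :=
          norm_add_le _ _
      _ ≤ (‖ψ‖ + ‖S x f p' ψ‖) + ε * ‖φ‖ * (X + Fs) := by
          gcongr
          exact norm_sub_le _ _
      _ ≤ (δ + 2 * (δ + ε * ‖φ‖ * Fs)) + ε * ‖φ‖ * (X + Fs) := by gcongr
      _ ≤ 3 * δ + ε * cst x f q * (‖φ‖ + δ) := by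
          rw [hcst]
          have h5 : ‖φ‖ * (3 * Fs + X) ≤ ((2 + N) * X + 3 * Fs + X) * (‖φ‖ + δ) := by
            have hp := norm_nonneg φ
            have : 0 ≤ (2 + N) * X * (‖φ‖ + δ) + (3 * Fs + X) * δ := by positivity
            nlinarith
          have h6 : ε * (‖φ‖ * (3 * Fs + X)) ≤
              ε * (((2 + N) * X + 3 * Fs + X) * (‖φ‖ + δ)) := by gcongr
          nlinarith

end

end Pool.Agent.BioW
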