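import Pool.Agent.BioW.Markush

set_option autoImplicit false
set_option linter.unusedSectionVars false

open Set Filter Topology Metric Submodule TopologicalSpace

namespace Pool.Agent.BioW

variable {𝕜 : Type*} [RCLike 𝕜] {E : Type*} [NormedAddCommGroup E] [NormedSpace 𝕜 E]

/-- elements of the span of a sequence lie in the span of a finite part. -/
theorem mem_span_Iio {G : Type*} [AddCommGroup G] [Module 𝕜 G] {x : ℕ → G} {z : G}
    (hz : z ∈ span 𝕜 (range x)) : ∃ q, z ∈ span 𝕜 (x '' Iio q) := by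
  induction hz using Submodule.span_induction with
  | mem z hz =>
    obtain ⟨n, rfl⟩ := hz
    exact ⟨n + 1, subset_span ⟨n, Nat.lt_succ_self n, rfl⟩⟩
  | zero => exact ⟨0, zero_mem _⟩
  | add a b _ _ ha hb =>
    obtain ⟨q, hq⟩ := ha
    obtain ⟨r, hr⟩ := hb
    refine ⟨max q r, add_mem (span_mono (image_mono ?_) hq) (span_mono (image_mono ?_) hr)⟩
    · exact Iio_subset_Iio (le_max_left _ _)
    · exact Iio_subset_Iio (le_max_right _ _)
  | smul c a _ ha =>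
    obtain ⟨q, hq⟩ := ha
    exact ⟨q, smul_mem _ c hq⟩

theorem d_zero_smul (g : StrongDual 𝕜 E) : (0 : 𝕜) • g = 0 := zero_smul 𝕜 g

theorem d_one_smul (g : StrongDual 𝕜 E) : (1 : 𝕜) • g = g := one_smul 𝕜 g

theorem d_add_smul (a b : 𝕜) (g : StrongDual 𝕜 E) : (a + b) • g = a • g + b • g :=
  add_smul a b g

theorem d_sub_smul (a b : 𝕜) (g : StrongDual 𝕜 E) : (a - b) • g = a • g - b • g :=
  sub_smul a b g

theorem d_mul_smul (a b : 𝕜) (g : StrongDual 𝕜 E) : (a * b) • g = a • b • g :=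
  mul_smul a b g

/-- partial sum operator on the dual -/
noncomputable def S (x : ℕ → E) (f : ℕ → StrongDual 𝕜 E) (m : ℕ) (φ : StrongDual 𝕜 E) :
    StrongDual 𝕜 E := ∑ n ∈ Finset.range m, φ (x n) • f n

section

variable {x : ℕ → E} {f : ℕ → StrongDual 𝕜 E}

theorem S_add (m : ℕ) (φ ψ : StrongDual 𝕜 E) : S x f m (φ + ψ) = S x f m φ + S x f m ψ := by
  simp only [S, _root_.add_apply, d_add_smul, Finset.sum_add_distrib]

theorem S_sub (m : ℕ) (φ ψ : StrongDual 𝕜 E) : S x f m (φ - ψ) = S x f m φ - S x f m ψ := by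
  simp only [S, _root_.sub_apply, d_sub_smul, Finset.sum_sub_distrib]

theorem S_smul (m : ℕ) (c : 𝕜) (φ : StrongDual 𝕜 E) : S x f m (c • φ) = c • S x f m φ := by
  simp only [S, _root_.smul_apply, smul_eq_mul, d_mul_smul, Finset.smul_sum]

theorem S_zero (m : ℕ) : S x f m (0 : StrongDual 𝕜 E) = 0 := by
  simp [S, d_zero_smul]

theorem S_norm (m : ℕ) (φ : StrongDual 𝕜 E) :
    ‖S x f m φ‖ ≤ (∑ n ∈ Finset.range m, ‖x n‖ * ‖f n‖) * ‖φ‖ := by
  rw [S, Finset.sum_mul]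
  refine (norm_sum_le _ _).trans (Finset.sum_le_sum fun n _ => ?_)
  rw [norm_smul]
  calc ‖φ (x n)‖ * ‖f n‖ ≤ (‖φ‖ * ‖x n‖) * ‖f n‖ := by
        gcongr
        exact φ.le_opNorm _
    _ = _ := by ring

theorem S_apply (hb : ∀ i j, f i (x j) = if i = j then 1 else 0) (m : ℕ)
    (φ : StrongDual 𝕜 E) (j : ℕ) : S x f m φ (x j) = if j < m then φ (x j) else 0 := by
  have h1 : S x f m φ (x j) = ∑ n ∈ Finset.range m, φ (x n) * (if n = j then 1 else 0) := by
    simp [S, hb]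
  rw [h1]
  simp [Finset.sum_ite_eq']

theorem S_mem (m : ℕ) (φ : StrongDual 𝕜 E) : S x f m φ ∈ span 𝕜 (f '' Iio m) := by
  apply sum_mem
  intro i hi
  exact smul_mem _ _ (subset_span ⟨i, Finset.mem_range.mp hi, rfl⟩)

theorem S_eq_self (hb : ∀ i j, f i (x j) = if i = j then 1 else 0) {m : ℕ}
    {φ : StrongDual 𝕜 E} (hφ : φ ∈ span 𝕜 (f '' Iio m)) : S x f m φ = φ := by
  induction hφ using Submodule.span_induction with
  | mem z hz =>
    obtain ⟨n, hn, rfl⟩ := hz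
    have h1 : S x f m (f n) = ∑ j ∈ Finset.range m, (if n = j then (1 : 𝕜) else 0) • f j := by
      simp [S, hb]
    rw [h1, Finset.sum_eq_single n]
    · simp
    · intro j _ hj
      rw [if_neg (Ne.symm hj), d_zero_smul]
    · intro h
      exact absurd (Finset.mem_range.mpr hn) h
  | zero => exact S_zero m
  | add a b _ _ ha hb' => rw [S_add, ha, hb']
  | smul c a _ ha => rw [S_smul, ha]

theorem S_mono (hb : ∀ i j, f i (x j) = if i = j then 1 else 0) {m n : ℕ} (h : m ≤ n)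
    {φ : StrongDual 𝕜 E} (hφ : φ ∈ span 𝕜 (f '' Iio m)) : S x f n φ = φ :=
  S_eq_self hb (span_mono (image_mono (Iio_subset_Iio h)) hφ)

theorem tail_mem (hb : ∀ i j, f i (x j) = if i = j then 1 else 0) (m : ℕ)
    {g : StrongDual 𝕜 E} (hg : g ∈ span 𝕜 (range f)) :
    ∃ q, g - S x f m g ∈ span 𝕜 (f '' Ico m q) := by
  induction hg using Submodule.span_induction with
  | mem z hz =>
    obtain ⟨n, rfl⟩ := hz
    by_cases hn : n < m
    · refine ⟨0, ?_⟩
      rw [S_eq_self hb (subset_span ⟨n, hn, rfl⟩), sub_self]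
      exact zero_mem _
    · refine ⟨n + 1, ?_⟩
      have h0 : S x f m (f n) = 0 := by
        apply Finset.sum_eq_zero
        intro j hj
        have : n ≠ j := by
          rintro rfl
          exact hn (Finset.mem_range.mp hj)
        rw [hb, if_neg this, d_zero_smul]
      rw [h0, sub_zero]
      exact subset_span ⟨n, ⟨not_lt.mp hn, Nat.lt_succ_self n⟩, rfl⟩
  | zero => exact ⟨0, by rw [S_zero, sub_zero]; exact zero_mem _⟩
  | add a b _ _ ha hb' =>
    obtain ⟨q, hq⟩ := ha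
    obtain ⟨r, hr⟩ := hb'
    refine ⟨max q r, ?_⟩
    rw [S_add, add_sub_add_comm]
    refine add_mem (span_mono (image_mono ?_) hq) (span_mono (image_mono ?_) hr)
    · exact Ico_subset_Ico_right (le_max_left _ _)
    · exact Ico_subset_Ico_right (le_max_right _ _)
  | smul c a _ ha =>
    obtain ⟨q, hq⟩ := ha
    refine ⟨q, ?_⟩
    rw [S_smul, ← smul_sub]
    exact smul_mem _ c hq

/-- Fact 1: norming. -/
theorem fact1 (hx : (span 𝕜 (range x)).topologicalClosure = ⊤) (p : ℕ) :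
    ∃ q, p < q ∧ ∀ h ∈ span 𝕜 (f '' Iio p), ∀ w : StrongDual 𝕜 E, (∀ n < q, w (x n) = 0) →
      ‖h‖ ≤ 2 * ‖h + w‖ := by
  set H : Submodule 𝕜 (StrongDual 𝕜 E) := span 𝕜 (f '' Iio p) with hH
  have hfin : FiniteDimensional 𝕜 H :=
    FiniteDimensional.span_of_finite 𝕜 ((finite_Iio p).image f)
  have hprop : ProperSpace H := FiniteDimensional.proper 𝕜 H
  have hK : IsCompact (Subtype.val '' (sphere (0 : H) 1)) :=
    (isCompact_sphere (0 : H) 1).image continuous_subtype_val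
  let V : ℕ → Set (StrongDual 𝕜 E) := fun q =>
    ⋃ z ∈ {z | z ∈ span 𝕜 (x '' Iio q) ∧ ‖z‖ ≤ 1}, {h | 1 / 2 < ‖h z‖}
  have hVo : ∀ q, IsOpen (V q) := by
    intro q
    apply isOpen_biUnion
    intro z _
    have hc : Continuous fun h : StrongDual 𝕜 E => ‖h z‖ :=
      ((ContinuousLinearMap.apply 𝕜 𝕜 z).continuous).norm
    exact isOpen_lt continuous_const hc
  have hVm : Monotone V := by
    intro q r hqr
    apply biUnion_mono _ (fun _ _ => subset_rfl)
    rintro z ⟨hz, hz1⟩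
    exact ⟨span_mono (image_mono (Iio_subset_Iio hqr)) hz, hz1⟩
  have hcov : Subtype.val '' (sphere (0 : H) 1) ⊆ ⋃ q, V q := by
    rintro _ ⟨h, hh, rfl⟩
    have hh1 : ‖(h : StrongDual 𝕜 E)‖ = 1 := by
      have h2 : dist (h : StrongDual 𝕜 E) (0 : StrongDual 𝕜 E) = 1 := hh
      rwa [dist_zero_right] at h2
    obtain ⟨z₀, hz₀, hz₀'⟩ := (h : StrongDual 𝕜 E).exists_lt_apply_of_lt_opNorm
      (show (1 / 2 : ℝ) < ‖(h : StrongDual 𝕜 E)‖ by rw [hh1]; norm_num)
    have hopen : IsOpen {z : E | ‖z‖ < 1 ∧ 1 / 2 < ‖(h : StrongDual 𝕜 E) z‖} :=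
      (isOpen_lt continuous_norm continuous_const).inter
        (isOpen_lt continuous_const (h : StrongDual 𝕜 E).continuous.norm)
    have hcl : z₀ ∈ closure (span 𝕜 (range x) : Set E) := by
      have : z₀ ∈ (span 𝕜 (range x)).topologicalClosure := by rw [hx]; trivial
      exact this
    obtain ⟨z, ⟨hz1, hz2⟩, hzs⟩ := mem_closure_iff.mp hcl _ hopen ⟨hz₀, hz₀'⟩
    obtain ⟨q, hq⟩ := mem_span_Iio hzs
    exact mem_iUnion.mpr ⟨q, mem_biUnion (show z ∈ {z | z ∈ span 𝕜 (x '' Iio q) ∧ ‖z‖ ≤ 1}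
      from ⟨hq, hz1.le⟩) hz2⟩
  obtain ⟨q₀, hq₀⟩ := hK.elim_directed_cover V hVo hcov hVm.directed_le
  refine ⟨max q₀ (p + 1), by omega, ?_⟩
  intro h hh w hw
  by_cases h0 : h = 0
  · rw [h0, norm_zero]
    positivity
  have hn : 0 < ‖h‖ := norm_pos_iff.mpr h0
  set h' : StrongDual 𝕜 E := ((‖h‖ : 𝕜)⁻¹) • h with hh'
  have hn' : ‖h'‖ = 1 := by
    rw [hh', norm_smul, norm_inv, RCLike.norm_ofReal, abs_norm, inv_mul_cancel₀ hn.ne']
  have hmem : h' ∈ Subtype.val '' (sphere (0 : H) 1) := by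
    refine ⟨⟨h', smul_mem _ _ hh⟩, ?_, rfl⟩
    show dist h' (0 : StrongDual 𝕜 E) = 1
    rwa [dist_zero_right]
  have hV := hq₀ hmem
  simp only [V, mem_iUnion, mem_ofPred_eq, exists_prop] at hV
  obtain ⟨z, ⟨hzs, hz1⟩, hz2⟩ := hV
  have hwz : w z = 0 := by
    have hker : span 𝕜 (x '' Iio q₀) ≤ LinearMap.ker (w : E →ₗ[𝕜] 𝕜) := by
      rw [span_le]
      rintro _ ⟨n, hn, rfl⟩
      exact hw n (lt_of_lt_of_le hn (le_max_left _ _))
    exact hker hzs
  have h3 : ‖h z‖ ≤ ‖h + w‖ := by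
    calc ‖h z‖ = ‖(h + w) z‖ := by rw [_root_.add_apply, hwz, add_zero]
      _ ≤ ‖h + w‖ * ‖z‖ := ContinuousLinearMap.le_opNorm _ _
      _ ≤ ‖h + w‖ * 1 := by gcongr
      _ = _ := mul_one _
  have h4 : ‖h' z‖ = ‖h‖⁻¹ * ‖h z‖ := by
    rw [hh', _root_.smul_apply, norm_smul, norm_inv, RCLike.norm_ofReal, abs_norm]
  rw [h4, ← div_eq_inv_mul, lt_div_iff₀ hn] at hz2
  linarith

/-- Fact 2: approximate representation. -/
theorem fact2 (hb : ∀ i j, f i (x j) = if i = j then 1 else 0)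
    (hf : (span 𝕜 (range f)).topologicalClosure = ⊤) (m : ℕ) :
    ∃ q, m < q ∧ ∀ φ : StrongDual 𝕜 E, ∃ v ∈ span 𝕜 (f '' Ico m q),
      ‖S x f m φ + v‖ ≤ 2 * ‖φ‖ := by
  let a : StrongDual 𝕜 E → (Fin m → 𝕜) := fun φ n => φ (x n)
  let b : (Fin m → 𝕜) → StrongDual 𝕜 E := fun c => ∑ n : Fin m, c n • f n
  have hbc : Continuous b := by
    apply continuous_finsetSum
    intro n _
    exact (continuous_apply n).smul continuous_const
  have hba : ∀ φ, b (a φ) = S x f m φ := by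
    intro φ
    simp only [a, b, S]
    exact (Finset.sum_range (fun n => φ (x n) • f n)).symm
  have hbdd : Bornology.IsBounded (a '' closedBall 0 1) := by
    rw [isBounded_iff_forall_norm_le]
    refine ⟨∑ n : Fin m, ‖x n‖, ?_⟩
    rintro _ ⟨φ, hφ, rfl⟩
    rw [mem_closedBall_zero_iff] at hφ
    rw [pi_norm_le_iff_of_nonneg (by positivity)]
    intro n
    calc ‖φ (x n)‖ ≤ ‖φ‖ * ‖x n‖ := φ.le_opNorm _
      _ ≤ 1 * ‖x n‖ := by gcongr
      _ = ‖x n‖ := one_mul _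
      _ ≤ ∑ n : Fin m, ‖x n‖ :=
        Finset.single_le_sum (f := fun n : Fin m => ‖x n‖) (fun _ _ => norm_nonneg _)
          (Finset.mem_univ n)
  have hK : IsCompact (closure (a '' closedBall 0 1)) :=
    isCompact_of_isClosed_isBounded isClosed_closure hbdd.closure
  let W : ℕ → Set (Fin m → 𝕜) := fun q =>
    ⋃ v ∈ {v | v ∈ span 𝕜 (f '' Ico m q)}, {c | ‖b c + v‖ < 2}
  have hWo : ∀ q, IsOpen (W q) := by
    intro q
    apply isOpen_biUnion
    intro v _
    exact isOpen_lt (hbc.add continuous_const).norm continuous_const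
  have hWm : Monotone W := by
    intro q r hqr
    apply biUnion_mono _ (fun _ _ => subset_rfl)
    intro v hv
    exact span_mono (image_mono (Ico_subset_Ico_right hqr)) hv
  set N : ℝ := ∑ n ∈ Finset.range m, ‖x n‖ * ‖f n‖ with hN
  have hN0 : 0 ≤ N := Finset.sum_nonneg fun _ _ => by positivity
  have hcov : closure (a '' closedBall 0 1) ⊆ ⋃ q, W q := by
    intro c hc
    have hopen : IsOpen {c' | ‖b c' - b c‖ < 1 / 4} :=
      isOpen_lt (hbc.sub continuous_const).norm continuous_const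
    obtain ⟨_, hφc, ⟨φ, hφ, rfl⟩⟩ := mem_closure_iff.mp hc _ hopen (by simp)
    rw [mem_closedBall_zero_iff] at hφ
    have hφcl : φ ∈ closure (span 𝕜 (range f) : Set (StrongDual 𝕜 E)) := by
      have : φ ∈ (span 𝕜 (range f)).topologicalClosure := by rw [hf]; trivial
      exact this
    obtain ⟨g, hg, hφg⟩ := Metric.mem_closure_iff.mp hφcl (1 / (4 * (N + 1))) (by positivity)
    rw [dist_eq_norm] at hφg
    obtain ⟨q, hq⟩ := tail_mem (x := x) hb m hg
    refine mem_iUnion.mpr ⟨q, mem_biUnion (show g - S x f m g ∈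
      {v | v ∈ span 𝕜 (f '' Ico m q)} from hq) ?_⟩
    have hd1 : ‖φ - g‖ ≤ 1 / 4 := by
      refine hφg.le.trans ?_
      apply one_div_le_one_div_of_le (by norm_num)
      linarith
    have hd2 : ‖S x f m (φ - g)‖ ≤ 1 / 4 := by
      refine (S_norm m _).trans ?_
      calc N * ‖φ - g‖ ≤ (N + 1) * (1 / (4 * (N + 1))) := by
            gcongr
            linarith
        _ = 1 / 4 := by field_simp
    have hg1 : ‖g‖ ≤ 5 / 4 := by
      calc ‖g‖ = ‖φ - (φ - g)‖ := by rw [sub_sub_cancel]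
        _ ≤ ‖φ‖ + ‖φ - g‖ := norm_sub_le _ _
        _ ≤ 5 / 4 := by linarith
    have e : b c + (g - S x f m g) = (-(b (a φ) - b c)) + g + S x f m (φ - g) := by
      rw [S_sub, ← hba φ]
      abel
    show ‖b c + (g - S x f m g)‖ < 2
    rw [e]
    have hφc' : ‖b (a φ) - b c‖ < 1 / 4 := hφc
    calc _ ≤ ‖-(b (a φ) - b c)‖ + ‖g‖ + ‖S x f m (φ - g)‖ := norm_add₃_le
      _ < 2 := by rw [norm_neg]; linarith
  obtain ⟨q₀, hq₀⟩ := hK.elim_directed_cover W hWo hcov hWm.directed_le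
  refine ⟨max q₀ (m + 1), by omega, ?_⟩
  intro φ
  by_cases h0 : φ = 0
  · exact ⟨0, zero_mem _, by rw [h0, S_zero]; simp⟩
  have hn : 0 < ‖φ‖ := norm_pos_iff.mpr h0
  set φ' : StrongDual 𝕜 E := ((‖φ‖ : 𝕜)⁻¹) • φ with hφ'
  have hn' : ‖φ'‖ = 1 := by
    rw [hφ', norm_smul, norm_inv, RCLike.norm_ofReal, abs_norm, inv_mul_cancel₀ hn.ne']
  have hmem : a φ' ∈ closure (a '' closedBall 0 1) :=
    subset_closure ⟨φ', by rw [mem_closedBall_zero_iff]; exact hn'.le, rfl⟩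
  have hW := hq₀ hmem
  simp only [W, mem_iUnion, mem_ofPred_eq, exists_prop] at hW
  obtain ⟨v, hv, hv2⟩ := hW
  rw [hba] at hv2
  refine ⟨(‖φ‖ : 𝕜) • v, smul_mem _ _ (span_mono (image_mono
    (Ico_subset_Ico_right (le_max_left _ _))) hv), ?_⟩
  have hφφ : φ = (‖φ‖ : 𝕜) • φ' := by
    rw [hφ', smul_smul, mul_inv_cancel₀, one_smul]
    exact_mod_cast hn.ne'
  have e : S x f m φ + (‖φ‖ : 𝕜) • v = (‖φ‖ : 𝕜) • (S x f m φ' + v) := by
    rw [smul_add, ← S_smul, ← hφφ]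
  rw [e, norm_smul, RCLike.norm_ofReal, abs_norm]
  nlinarith

end

end Pool.Agent.BioW
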