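import Pool.Agent.BioW.Facts

set_option autoImplicit false
set_option linter.unusedSectionVars false

open Set Filter Topology Metric Submodule TopologicalSpace

namespace Pool.Agent.BioW

section Lag

variable {𝕜 : Type*} [RCLike 𝕜]

/-- nodes -/
def nd (𝕜 : Type*) [RCLike 𝕜] (i : ℕ) : 𝕜 := (i : 𝕜)

theorem nd_inj (M : Finset ℕ) : Set.InjOn (nd 𝕜) M := by
  intro i _ j _ h
  exact Nat.cast_injective (R := 𝕜) h

/-- coefficients of the Lagrange basis -/
noncomputable def lc (𝕜 : Type*) [RCLike 𝕜] (M : Finset ℕ) (i j : ℕ) : 𝕜 :=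
  (Lagrange.basis M (nd 𝕜) i).coeff j

theorem lag (M : Finset ℕ) (j l : ℕ) (hl : l < M.card) :
    ∑ i ∈ M, lc 𝕜 M i j * (nd 𝕜 i) ^ l = if l = j then 1 else 0 := by
  have hdeg : (Polynomial.X ^ l : Polynomial 𝕜).degree < M.card := by
    rw [Polynomial.degree_X_pow]
    exact_mod_cast hl
  have h1 := Lagrange.eq_interpolate (nd_inj (𝕜 := 𝕜) M) hdeg
  have h2 := congrArg (fun p => Polynomial.coeff p j) h1
  simp only [Polynomial.coeff_X_pow, Lagrange.interpolate_apply, Polynomial.finsetSum_coeff,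
    Polynomial.coeff_C_mul, Polynomial.eval_pow, Polynomial.eval_X] at h2
  have h3 : (if l = j then (1 : 𝕜) else 0) = if j = l then (1 : 𝕜) else 0 := by
    simp only [eq_comm]
  rw [h3, h2]
  exact Finset.sum_congr rfl fun i _ => mul_comm _ _

theorem eval_sum (M : Finset ℕ) (r : ℕ → 𝕜) {i : ℕ} (hi : i ∈ M) :
    ∑ l ∈ Finset.range M.card, (Lagrange.interpolate M (nd 𝕜) r).coeff l * (nd 𝕜 i) ^ l = r i := by
  have h1 := Lagrange.eval_interpolate_at_node r (nd_inj (𝕜 := 𝕜) M) hi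
  rw [← h1]
  symm
  apply Polynomial.eval_eq_sum_range'
  have hd := Lagrange.degree_interpolate_lt r (nd_inj (𝕜 := 𝕜) M)
  have hpos : 0 < M.card := Finset.card_pos.mpr ⟨i, hi⟩
  by_cases h0 : Lagrange.interpolate M (nd 𝕜) r = 0
  · rw [h0, Polynomial.natDegree_zero]
    exact hpos
  · rwa [Polynomial.natDegree_lt_iff_degree_lt h0]

theorem eval_basis_sum (M : Finset ℕ) {i k : ℕ} (hi : i ∈ M) (hk : k ∈ M) :
    ∑ l ∈ Finset.range M.card, lc 𝕜 M k l * (nd 𝕜 i) ^ l = if i = k then 1 else 0 := by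
  have h1 : (Lagrange.basis M (nd 𝕜) k).eval (nd 𝕜 i) = if i = k then 1 else 0 := by
    split_ifs with h
    · rw [h]
      exact Lagrange.eval_basis_self (nd_inj M) hk
    · exact Lagrange.eval_basis_of_ne (Ne.symm h) hi
  rw [← h1]
  symm
  apply Polynomial.eval_eq_sum_range'
  have hd := Lagrange.natDegree_basis (nd_inj (𝕜 := 𝕜) M) hk
  have hpos : 0 < M.card := Finset.card_pos.mpr ⟨i, hi⟩
  rw [hd]
  omega

end Lag

section Gen

variable {𝕜 : Type*} [RCLike 𝕜] {V : Type*} [NormedAddCommGroup V] [NormedSpace 𝕜 V]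

/-- the new functionals -/
noncomputable def gg (a : ℕ) (t : 𝕜) (f : ℕ → V) (i : ℕ) : V :=
  ∑ j ∈ Finset.range a, ((nd 𝕜 i) ^ j * t ^ j) • f j

/-- the new vectors -/
noncomputable def yy (a : ℕ) (t : 𝕜) (x : ℕ → V) (i : ℕ) : V :=
  ∑ j ∈ Finset.range a, ((t⁻¹) ^ j * lc 𝕜 (Finset.range a) i j) • x j

theorem sum_gg (a : ℕ) (t : 𝕜) (f : ℕ → V) (M : Finset ℕ) (j : ℕ) :
    ∑ i ∈ M, ((t⁻¹) ^ j * lc 𝕜 M i j) • gg a t f i =
      ∑ l ∈ Finset.range a, ((t⁻¹) ^ j * t ^ l * ∑ i ∈ M, lc 𝕜 M i j * (nd 𝕜 i) ^ l) • f l := by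
  simp only [gg, Finset.smul_sum, smul_smul]
  rw [Finset.sum_comm]
  apply Finset.sum_congr rfl
  intro l _
  rw [← Finset.sum_smul]
  congr 1
  rw [Finset.mul_sum]
  apply Finset.sum_congr rfl
  intro i _
  ring

theorem recF (a : ℕ) {t : 𝕜} (ht : t ≠ 0) (f : ℕ → V) {j : ℕ} (hj : j < a) :
    ∑ i ∈ Finset.range a, ((t⁻¹) ^ j * lc 𝕜 (Finset.range a) i j) • gg a t f i = f j := by
  rw [sum_gg, Finset.sum_eq_single j]
  · rw [lag _ _ _ (by rwa [Finset.card_range]), if_pos rfl, mul_one, ← mul_pow,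
      inv_mul_cancel₀ ht, one_pow, one_smul]
  · intro l hl hlj
    rw [lag _ _ _ (by rw [Finset.card_range]; exact Finset.mem_range.mp hl), if_neg hlj,
      mul_zero, zero_smul]
  · intro h
    exact absurd (Finset.mem_range.mpr hj) h

theorem recX (a : ℕ) {t : 𝕜} (ht : t ≠ 0) (x : ℕ → V) {l : ℕ} (hl : l < a) :
    ∑ i ∈ Finset.range a, ((nd 𝕜 i) ^ l * t ^ l) • yy a t x i = x l := by
  have h1 : ∑ i ∈ Finset.range a, ((nd 𝕜 i) ^ l * t ^ l) • yy a t x i =
      ∑ j ∈ Finset.range a, (t ^ l * (t⁻¹) ^ j *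
        ∑ i ∈ Finset.range a, lc 𝕜 (Finset.range a) i j * (nd 𝕜 i) ^ l) • x j := by
    simp only [yy, Finset.smul_sum, smul_smul]
    rw [Finset.sum_comm]
    apply Finset.sum_congr rfl
    intro j _
    rw [← Finset.sum_smul]
    congr 1
    rw [Finset.mul_sum]
    apply Finset.sum_congr rfl
    intro i _
    ring
  rw [h1, Finset.sum_eq_single l]
  · rw [lag _ _ _ (by rwa [Finset.card_range]), if_pos rfl, mul_one, ← mul_pow,
      mul_inv_cancel₀ ht, one_pow, one_smul]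
  · intro j _ hj
    rw [lag _ _ _ (by rwa [Finset.card_range]), if_neg (Ne.symm hj), mul_zero, zero_smul]
  · intro h
    exact absurd (Finset.mem_range.mpr hl) h

theorem pow_bound {t : 𝕜} (ht : t ≠ 0) (ht1 : ‖t‖ ≤ 1) {j l : ℕ} (h : j < l) :
    ‖(t⁻¹) ^ j * t ^ l‖ ≤ ‖t‖ := by
  obtain ⟨d, rfl⟩ := Nat.exists_eq_add_of_lt h
  have : (t⁻¹) ^ j * t ^ (j + d + 1) = t ^ d * t := by
    rw [add_assoc, pow_add t j, ← mul_assoc, ← mul_pow, inv_mul_cancel₀ ht, one_pow, one_mul,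
      pow_succ]
  rw [this, norm_mul, norm_pow]
  calc ‖t‖ ^ d * ‖t‖ ≤ 1 * ‖t‖ := by
        gcongr
        exact pow_le_one₀ (norm_nonneg t) ht1
    _ = ‖t‖ := one_mul _

theorem approxF (a : ℕ) {t : 𝕜} (ht : t ≠ 0) (ht1 : ‖t‖ ≤ 1) (f : ℕ → V) {M : Finset ℕ}
    (hMa : M ⊆ Finset.range a) {j : ℕ} (hj : j < M.card) :
    ‖f j - ∑ i ∈ M, ((t⁻¹) ^ j * lc 𝕜 M i j) • gg a t f i‖ ≤
      ‖t‖ * ∑ l ∈ Finset.range a, ‖∑ i ∈ M, lc 𝕜 M i j * (nd 𝕜 i) ^ l‖ * ‖f l‖ := by
  have hcard : M.card ≤ a := by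
    have := Finset.card_le_card hMa
    rwa [Finset.card_range] at this
  have hfj : f j = ∑ l ∈ Finset.range a, (if l = j then (1 : 𝕜) else 0) • f l := by
    rw [Finset.sum_eq_single j]
    · rw [if_pos rfl, one_smul]
    · intro l _ hl
      rw [if_neg hl, zero_smul]
    · intro h
      exact absurd (Finset.mem_range.mpr (lt_of_lt_of_le hj hcard)) h
  rw [sum_gg]
  conv_lhs => rw [hfj]
  rw [← Finset.sum_sub_distrib, Finset.mul_sum]
  refine (norm_sum_le _ _).trans (Finset.sum_le_sum fun l _ => ?_)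
  rw [← sub_smul, norm_smul, ← mul_assoc]
  gcongr
  set A : 𝕜 := ∑ i ∈ M, lc 𝕜 M i j * (nd 𝕜 i) ^ l with hA
  by_cases hl : l < M.card
  · have h1 : A = if l = j then 1 else 0 := lag M j l hl
    rw [h1]
    split_ifs with h
    · rw [h, mul_one, ← mul_pow, inv_mul_cancel₀ ht, one_pow, sub_self, norm_zero]
      positivity
    · simp
  · have hjl : j < l := lt_of_lt_of_le hj (not_lt.mp hl)
    rw [if_neg hjl.ne', zero_sub, norm_neg, norm_mul]
    gcongr
    exact pow_bound ht ht1 hjl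

theorem approxX (a : ℕ) {t : 𝕜} (ht : t ≠ 0) (ht1 : ‖t‖ ≤ 1) (x : ℕ → V) {M : Finset ℕ}
    (hMa : M ⊆ Finset.range a) {j : ℕ} (hj : M.card ≤ j) (hja : j < a) :
    ∃ z ∈ span 𝕜 (yy a t x '' {i | i < a ∧ i ∉ M}), ‖x j - z‖ ≤
      ‖t‖ * ∑ l ∈ Finset.range a,
        ‖(Lagrange.interpolate M (nd 𝕜) fun i => (nd 𝕜 i) ^ j).coeff l‖ * ‖x l‖ := by
  set Q := Lagrange.interpolate M (nd 𝕜) fun i => (nd 𝕜 i) ^ j with hQ
  have hcard : M.card ≤ a := by
    have := Finset.card_le_card hMa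
    rwa [Finset.card_range] at this
  set z : V := x j - ∑ l ∈ Finset.range M.card, (Q.coeff l * t ^ (j - l)) • x l with hz
  refine ⟨z, ?_, ?_⟩
  · have h1 : z = ∑ i ∈ Finset.range a, ((nd 𝕜 i) ^ j * t ^ j -
        ∑ l ∈ Finset.range M.card, Q.coeff l * t ^ (j - l) * ((nd 𝕜 i) ^ l * t ^ l)) •
          yy a t x i := by
      simp only [sub_smul, Finset.sum_sub_distrib, Finset.sum_smul]
      rw [recX a ht x hja, Finset.sum_comm, hz]
      congr 1
      apply Finset.sum_congr rfl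
      intro l hl
      have hla : l < a := lt_of_lt_of_le (Finset.mem_range.mp hl) hcard
      conv_lhs => rw [← recX a ht x hla]
      rw [Finset.smul_sum]
      apply Finset.sum_congr rfl
      intro i _
      rw [smul_smul]
    rw [h1]
    apply sum_mem
    intro i hi
    by_cases hiM : i ∈ M
    · have h2 : (nd 𝕜 i) ^ j * t ^ j -
        ∑ l ∈ Finset.range M.card, Q.coeff l * t ^ (j - l) * ((nd 𝕜 i) ^ l * t ^ l) = 0 := by
        have h3 := eval_sum M (fun i => (nd 𝕜 i) ^ j) hiM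
        rw [← hQ] at h3
        have h4 : ∑ l ∈ Finset.range M.card, Q.coeff l * t ^ (j - l) * ((nd 𝕜 i) ^ l * t ^ l) =
            (∑ l ∈ Finset.range M.card, Q.coeff l * (nd 𝕜 i) ^ l) * t ^ j := by
          rw [Finset.sum_mul]
          apply Finset.sum_congr rfl
          intro l hl
          have hlj : l ≤ j := (Finset.mem_range.mp hl).le.trans hj
          have : t ^ j = t ^ (j - l) * t ^ l := by
            rw [← pow_add, Nat.sub_add_cancel hlj]
          rw [this]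
          ring
        rw [h4, h3, sub_self]
      rw [h2, zero_smul]
      exact zero_mem _
    · exact smul_mem _ _ (subset_span ⟨i, ⟨Finset.mem_range.mp hi, hiM⟩, rfl⟩)
  · rw [hz, sub_sub_cancel, Finset.mul_sum]
    refine (norm_sum_le _ _).trans ?_
    refine (Finset.sum_le_sum (g := fun l => ‖t‖ * (‖Q.coeff l‖ * ‖x l‖)) ?_).trans ?_
    · intro l hl
      have hlj : l < j := lt_of_lt_of_le (Finset.mem_range.mp hl) hj
      rw [norm_smul, norm_mul, norm_pow]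
      have h5 : ‖t‖ ^ (j - l) ≤ ‖t‖ := by
        obtain ⟨d, hd⟩ := Nat.exists_eq_add_of_lt hlj
        have : j - l = d + 1 := by omega
        rw [this, pow_succ]
        calc ‖t‖ ^ d * ‖t‖ ≤ 1 * ‖t‖ := by
              gcongr
              exact pow_le_one₀ (norm_nonneg t) ht1
          _ = ‖t‖ := one_mul _
      calc ‖Q.coeff l‖ * ‖t‖ ^ (j - l) * ‖x l‖ ≤ ‖Q.coeff l‖ * ‖t‖ * ‖x l‖ := by gcongr
        _ = _ := by ring
    · apply Finset.sum_le_sum_of_subset_of_nonneg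
      · exact Finset.range_subset_range.mpr hcard
      · intro l _ _
        positivity

end Gen

section Flag

variable {𝕜 : Type*} [RCLike 𝕜] {E : Type*} [NormedAddCommGroup E] [NormedSpace 𝕜 E]

theorem gg_yy {x : ℕ → E} {f : ℕ → StrongDual 𝕜 E} {a : ℕ}
    (hb : ∀ i < a, ∀ j < a, f i (x j) = if i = j then 1 else 0) {t : 𝕜} (ht : t ≠ 0)
    {i k : ℕ} (hi : i < a) (hk : k < a) :
    gg a t f i (yy a t x k) = if i = k then 1 else 0 := by
  have h1 : gg a t f i (yy a t x k) = ∑ l ∈ Finset.range a, ((nd 𝕜 i) ^ l * t ^ l) *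
      ∑ m ∈ Finset.range a, ((t⁻¹) ^ m * lc 𝕜 (Finset.range a) k m) * f l (x m) := by
    rw [gg, _root_.sum_apply]
    apply Finset.sum_congr rfl
    intro l _
    rw [_root_.smul_apply, yy, map_sum, smul_eq_mul]
    congr 1
    apply Finset.sum_congr rfl
    intro m _
    rw [map_smul, smul_eq_mul]
  have h2 : ∀ l ∈ Finset.range a, ((nd 𝕜 i) ^ l * t ^ l) *
      ∑ m ∈ Finset.range a, ((t⁻¹) ^ m * lc 𝕜 (Finset.range a) k m) * f l (x m) =
      lc 𝕜 (Finset.range a) k l * (nd 𝕜 i) ^ l := by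
    intro l hl
    rw [Finset.sum_eq_single l]
    · rw [hb l (Finset.mem_range.mp hl) l (Finset.mem_range.mp hl), if_pos rfl, mul_one]
      have : t ^ l * t⁻¹ ^ l = 1 := by rw [← mul_pow, mul_inv_cancel₀ ht, one_pow]
      calc _ = (t ^ l * t⁻¹ ^ l) * (lc 𝕜 (Finset.range a) k l * nd 𝕜 i ^ l) := by ring
        _ = _ := by rw [this, one_mul]
    · intro m hm hml
      rw [hb l (Finset.mem_range.mp hl) m (Finset.mem_range.mp hm), if_neg (Ne.symm hml),
        mul_zero]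
    · intro h
      exact absurd hl h
  rw [h1, Finset.sum_congr rfl h2]
  have h3 := eval_basis_sum (𝕜 := 𝕜) (Finset.range a) (Finset.mem_range.mpr hi)
    (Finset.mem_range.mpr hk)
  rwa [Finset.card_range] at h3

/-- The flag lemma. -/
theorem flag (x : ℕ → E) (f : ℕ → StrongDual 𝕜 E) (a : ℕ)
    (hb : ∀ i < a, ∀ j < a, f i (x j) = if i = j then 1 else 0) {ε : ℝ} (hε : 0 < ε) :
    ∃ (y : ℕ → E) (g : ℕ → StrongDual 𝕜 E),
      (∀ i, y i ∈ span 𝕜 (x '' Iio a)) ∧ (∀ i, g i ∈ span 𝕜 (f '' Iio a)) ∧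
      (∀ j < a, x j ∈ span 𝕜 (y '' Iio a)) ∧ (∀ j < a, f j ∈ span 𝕜 (g '' Iio a)) ∧
      (∀ i < a, ∀ k < a, g i (y k) = if i = k then 1 else 0) ∧
      (∀ M ⊆ Finset.range a, ∀ j < M.card, ∃ h ∈ span 𝕜 (g '' (M : Set ℕ)), ‖f j - h‖ ≤ ε) ∧
      (∀ M ⊆ Finset.range a, ∀ j, M.card ≤ j → j < a →
        ∃ z ∈ span 𝕜 (y '' {i | i < a ∧ i ∉ M}), ‖x j - z‖ ≤ ε) := by
  classical
  -- constants
  let B1 : Finset ℕ → ℕ → ℝ := fun M j =>
    ∑ l ∈ Finset.range a, ‖∑ i ∈ M, lc 𝕜 M i j * (nd 𝕜 i) ^ l‖ * ‖f l‖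
  let B2 : Finset ℕ → ℕ → ℝ := fun M j => ∑ l ∈ Finset.range a,
        ‖(Lagrange.interpolate M (nd 𝕜) fun i => (nd 𝕜 i) ^ j).coeff l‖ * ‖x l‖
  have hB1 : ∀ M j, 0 ≤ B1 M j := fun M j => Finset.sum_nonneg fun _ _ => by positivity
  have hB2 : ∀ M j, 0 ≤ B2 M j := fun M j => Finset.sum_nonneg fun _ _ => by positivity
  let B : ℝ := ∑ M ∈ (Finset.range a).powerset, ∑ j ∈ Finset.range a, (B1 M j + B2 M j)
  have hB : 0 ≤ B := Finset.sum_nonneg fun M _ => Finset.sum_nonneg fun j _ =>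
    add_nonneg (hB1 M j) (hB2 M j)
  have hle : ∀ M ⊆ Finset.range a, ∀ j < a, B1 M j + B2 M j ≤ B := by
    intro M hM j hj
    calc B1 M j + B2 M j ≤ ∑ j ∈ Finset.range a, (B1 M j + B2 M j) :=
          Finset.single_le_sum (f := fun j => B1 M j + B2 M j)
            (fun j _ => add_nonneg (hB1 M j) (hB2 M j)) (Finset.mem_range.mpr hj)
      _ ≤ B := Finset.single_le_sum
            (f := fun M => ∑ j ∈ Finset.range a, (B1 M j + B2 M j))
            (fun M _ => Finset.sum_nonneg fun j _ => add_nonneg (hB1 M j) (hB2 M j))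
            (Finset.mem_powerset.mpr hM)
  set τ : ℝ := min 1 (ε / (B + 1)) with hτ
  have hτ0 : 0 < τ := lt_min one_pos (by positivity)
  have hτ1 : τ ≤ 1 := min_le_left _ _
  have hτB : τ * B ≤ ε := by
    calc τ * B ≤ (ε / (B + 1)) * (B + 1) := by
          gcongr
          · exact min_le_right _ _
          · linarith
      _ = ε := by field_simp
  set t : 𝕜 := (τ : 𝕜) with ht
  have htn : ‖t‖ = τ := by rw [ht, RCLike.norm_ofReal, abs_of_pos hτ0]
  have ht0 : t ≠ 0 := by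
    rw [← norm_pos_iff, htn]
    exact hτ0
  have ht1 : ‖t‖ ≤ 1 := by rw [htn]; exact hτ1
  refine ⟨yy a t x, gg a t f, ?_, ?_, ?_, ?_, ?_, ?_, ?_⟩
  · intro i
    apply sum_mem
    intro j hj
    exact smul_mem _ _ (subset_span ⟨j, Finset.mem_range.mp hj, rfl⟩)
  · intro i
    apply sum_mem
    intro j hj
    exact smul_mem _ _ (subset_span ⟨j, Finset.mem_range.mp hj, rfl⟩)
  · intro j hj
    rw [← recX a ht0 x hj]
    apply sum_mem
    intro i hi
    exact smul_mem _ _ (subset_span ⟨i, Finset.mem_range.mp hi, rfl⟩)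
  · intro j hj
    rw [← recF a ht0 f hj]
    apply sum_mem
    intro i hi
    exact smul_mem _ _ (subset_span ⟨i, Finset.mem_range.mp hi, rfl⟩)
  · intro i hi k hk
    exact gg_yy hb ht0 hi hk
  · intro M hM j hj
    refine ⟨_, ?_, (approxF a ht0 ht1 f hM hj).trans ?_⟩
    · apply sum_mem
      intro i hi
      exact smul_mem _ _ (subset_span ⟨i, hi, rfl⟩)
    · rw [htn]
      have hja : j < a := by
        have := Finset.card_le_card hM
        rw [Finset.card_range] at this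
        omega
      calc τ * B1 M j ≤ τ * B := by
            gcongr
            linarith [hle M hM j hja, hB2 M j]
        _ ≤ ε := hτB
  · intro M hM j hj hja
    obtain ⟨z, hz, hzn⟩ := approxX a ht0 ht1 x hM hj hja
    refine ⟨z, hz, hzn.trans ?_⟩
    rw [htn]
    calc τ * B2 M j ≤ τ * B := by
          gcongr
          linarith [hle M hM j hja, hB1 M j]
      _ ≤ ε := hτB

end Flag

end Pool.Agent.BioW
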