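import Mathlib

set_option autoImplicit false
set_option linter.unusedSectionVars false

open Set Filter Topology Metric Submodule TopologicalSpace

namespace Pool.Agent.BioW

variable {𝕜 : Type*} [RCLike 𝕜] {E : Type*} [NormedAddCommGroup E] [NormedSpace 𝕜 E]

/-- Hahn–Banach: separating a point from a closed subspace. -/
theorem exists_sep {p : Submodule 𝕜 E} (hp : IsClosed (p : Set E)) {v : E} (hv : v ∉ p) :
    ∃ φ : StrongDual 𝕜 E, φ v = 1 ∧ ∀ x ∈ p, φ x = 0 := by
  have : IsClosed (p : Set E) := hp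
  have hne : (Submodule.Quotient.mk v : E ⧸ p) ≠ 0 := by
    rwa [Ne, Submodule.Quotient.mk_eq_zero]
  obtain ⟨g, hg⟩ := SeparatingDual.exists_eq_one (R := 𝕜) hne
  refine ⟨g.comp p.mkQL, hg, fun x hx => ?_⟩
  have h0 : (Submodule.Quotient.mk x : E ⧸ p) = 0 := by
    rwa [Submodule.Quotient.mk_eq_zero]
  show g (Submodule.Quotient.mk x) = 0
  rw [h0, map_zero]

/-- If no nonzero functional kills `s`, then the span of `s` is dense. -/
theorem dense_of_ann {s : Set E} (h : ∀ φ : StrongDual 𝕜 E, (∀ x ∈ s, φ x = 0) → φ = 0) :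
    (span 𝕜 s).topologicalClosure = ⊤ := by
  by_contra hcon
  obtain ⟨v, hv⟩ : ∃ v, v ∉ (span 𝕜 s).topologicalClosure := by
    by_contra hall
    push Not at hall
    exact hcon (eq_top_iff.mpr fun v _ => hall v)
  obtain ⟨φ, hφv, hφ⟩ := exists_sep (isClosed_topologicalClosure _) hv
  have := h φ (fun x hx => hφ x (subset_closure (subset_span hx)))
  rw [this] at hφv
  simp at hφv

/-- From a dense sequence in the dual we get a sequence in `E` with dense span. -/
theorem exists_seq_dense [SeparableSpace (StrongDual 𝕜 E)] :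
    ∃ u : ℕ → E, (span 𝕜 (range u)).topologicalClosure = ⊤ := by
  obtain ⟨h, hh⟩ := exists_dense_seq (StrongDual 𝕜 E)
  have hex : ∀ k, ∃ u : E, ‖u‖ ≤ 1 ∧ ‖h k‖ / 2 ≤ ‖h k u‖ := by
    intro k
    by_cases h0 : h k = 0
    · exact ⟨0, by simp, by simp [h0]⟩
    · have hpos : 0 < ‖h k‖ := norm_pos_iff.mpr h0
      obtain ⟨u, hu1, hu2⟩ := (h k).exists_lt_apply_of_lt_opNorm
        (show ‖h k‖ / 2 < ‖h k‖ by linarith)
      exact ⟨u, hu1.le, hu2.le⟩
  choose u hu1 hu2 using hex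
  refine ⟨u, dense_of_ann fun φ hφ => ?_⟩
  by_contra hφ0
  have hpos : 0 < ‖φ‖ := norm_pos_iff.mpr hφ0
  obtain ⟨k, hk⟩ := hh.exists_dist_lt φ (show 0 < ‖φ‖ / 8 by positivity)
  rw [dist_eq_norm] at hk
  have h1 : φ (u k) = 0 := hφ _ (mem_range_self k)
  have h2 : ‖h k (u k)‖ ≤ ‖φ‖ / 8 := by
    have : h k (u k) = -((φ - h k) (u k)) := by
      rw [_root_.sub_apply, h1]
      ring
    rw [this, norm_neg]
    calc _ ≤ ‖φ - h k‖ * ‖u k‖ := ContinuousLinearMap.le_opNorm _ _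
      _ ≤ ‖φ - h k‖ * 1 := by gcongr; exact hu1 k
      _ ≤ ‖φ‖ / 8 := by linarith
  have h3 := hu2 k
  have h4 : ‖φ‖ ≤ ‖φ - h k‖ + ‖h k‖ := by
    calc ‖φ‖ = ‖(φ - h k) + h k‖ := by rw [sub_add_cancel]
      _ ≤ _ := norm_add_le _ _
  linarith

/-- A finite biorthogonal system, stored as sequences of which only the first `n` terms count. -/
structure BS (𝕜 : Type*) [RCLike 𝕜] (E : Type*) [NormedAddCommGroup E] [NormedSpace 𝕜 E] where
  n : ℕ
  x : ℕ → E
  f : ℕ → StrongDual 𝕜 E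
  bio : ∀ i < n, ∀ j < n, f i (x j) = if i = j then 1 else 0

namespace BS

/-- `t` extends `s` -/
def Ext (s t : BS 𝕜 E) : Prop :=
  s.n ≤ t.n ∧ (∀ i < s.n, t.x i = s.x i) ∧ (∀ i < s.n, t.f i = s.f i)

theorem Ext.refl (s : BS 𝕜 E) : Ext s s := ⟨le_rfl, fun _ _ => rfl, fun _ _ => rfl⟩

theorem Ext.trans {s t u : BS 𝕜 E} (h1 : Ext s t) (h2 : Ext t u) : Ext s u :=
  ⟨h1.1.trans h2.1, fun i hi => (h2.2.1 i (hi.trans_le h1.1)).trans (h1.2.1 i hi),
    fun i hi => (h2.2.2 i (hi.trans_le h1.1)).trans (h1.2.2 i hi)⟩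

/-- span of the vectors -/
def X (s : BS 𝕜 E) : Submodule 𝕜 E := span 𝕜 (s.x '' Iio s.n)

/-- span of the functionals -/
def F (s : BS 𝕜 E) : Submodule 𝕜 (StrongDual 𝕜 E) := span 𝕜 (s.f '' Iio s.n)

theorem Ext.X_le {s t : BS 𝕜 E} (h : Ext s t) : s.X ≤ t.X := by
  apply span_mono
  rintro _ ⟨i, hi, rfl⟩
  exact ⟨i, lt_of_lt_of_le hi h.1, h.2.1 i hi⟩

theorem Ext.F_le {s t : BS 𝕜 E} (h : Ext s t) : s.F ≤ t.F := by
  apply span_mono
  rintro _ ⟨i, hi, rfl⟩
  exact ⟨i, lt_of_lt_of_le hi h.1, h.2.2 i hi⟩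

/-- append a new pair -/
noncomputable def snoc (s : BS 𝕜 E) (v : E) (φ : StrongDual 𝕜 E) (hv : ∀ i < s.n, s.f i v = 0)
    (hφ : ∀ i < s.n, φ (s.x i) = 0) (h1 : φ v = 1) : BS 𝕜 E where
  n := s.n + 1
  x := Function.update s.x s.n v
  f := Function.update s.f s.n φ
  bio := by
    intro i hi j hj
    rcases Nat.lt_succ_iff_lt_or_eq.mp hi with hi | rfl
    · rcases Nat.lt_succ_iff_lt_or_eq.mp hj with hj | rfl
      · rw [Function.update_of_ne hi.ne, Function.update_of_ne hj.ne]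
        exact s.bio i hi j hj
      · rw [Function.update_of_ne hi.ne, Function.update_self, if_neg hi.ne]
        exact hv i hi
    · rcases Nat.lt_succ_iff_lt_or_eq.mp hj with hj | rfl
      · rw [Function.update_of_ne hj.ne, Function.update_self, if_neg hj.ne']
        exact hφ j hj
      · rw [Function.update_self, Function.update_self, if_pos rfl]
        exact h1

theorem snoc_ext (s : BS 𝕜 E) (v : E) (φ : StrongDual 𝕜 E) (hv hφ h1) :
    Ext s (s.snoc v φ hv hφ h1) :=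
  ⟨Nat.le_succ _, fun _ hi => Function.update_of_ne (ne_of_lt hi) _ _,
    fun _ hi => Function.update_of_ne (ne_of_lt hi) _ _⟩

theorem snoc_v (s : BS 𝕜 E) (v : E) (φ : StrongDual 𝕜 E) (hv hφ h1) :
    v ∈ (s.snoc v φ hv hφ h1).X :=
  subset_span ⟨s.n, Nat.lt_succ_self _, Function.update_self _ _ _⟩

theorem snoc_φ (s : BS 𝕜 E) (v : E) (φ : StrongDual 𝕜 E) (hv hφ h1) :
    φ ∈ (s.snoc v φ hv hφ h1).F :=
  subset_span ⟨s.n, Nat.lt_succ_self _, Function.update_self _ _ _⟩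

/-- add a vector -/
theorem addX (s : BS 𝕜 E) (u : E) :
    ∃ t : BS 𝕜 E, Ext s t ∧ u ∈ t.X ∧ (u ∉ s.X → s.n < t.n) := by
  set v : E := u - ∑ i ∈ Finset.range s.n, s.f i u • s.x i with hv
  have hsum : ∑ i ∈ Finset.range s.n, s.f i u • s.x i ∈ s.X := by
    apply sum_mem
    intro i hi
    exact s.X.smul_mem _ (subset_span ⟨i, Finset.mem_range.mp hi, rfl⟩)
  by_cases h0 : v = 0
  · have hu : u ∈ s.X := by
      have : u = ∑ i ∈ Finset.range s.n, s.f i u • s.x i := sub_eq_zero.mp h0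
      rw [this]
      exact hsum
    exact ⟨s, Ext.refl s, hu, fun h => absurd hu h⟩
  · obtain ⟨φ, hφ⟩ := SeparatingDual.exists_eq_one (R := 𝕜) h0
    have hkill : ∀ i < s.n, s.f i v = 0 := by
      intro i hi
      rw [hv, map_sub, map_sum, Finset.sum_eq_single i]
      · rw [map_smul, s.bio i hi i hi, if_pos rfl, smul_eq_mul, mul_one, sub_self]
      · intro j hj hji
        rw [map_smul, s.bio i hi j (Finset.mem_range.mp hj), if_neg (Ne.symm hji), smul_zero]
      · intro h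
        exact absurd (Finset.mem_range.mpr hi) h
    set ψ : StrongDual 𝕜 E := φ - ∑ i ∈ Finset.range s.n, φ (s.x i) • s.f i with hψ
    have hψapp : ∀ y, ψ y = φ y - ∑ i ∈ Finset.range s.n, φ (s.x i) * s.f i y := by
      intro y
      simp [hψ]
    have hψx : ∀ i < s.n, ψ (s.x i) = 0 := by
      intro i hi
      rw [hψapp, Finset.sum_eq_single i]
      · rw [s.bio i hi i hi, if_pos rfl, mul_one, sub_self]
      · intro j hj hji
        rw [s.bio j (Finset.mem_range.mp hj) i hi, if_neg hji, mul_zero]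
      · intro h
        exact absurd (Finset.mem_range.mpr hi) h
    have hψv : ψ v = 1 := by
      rw [hψapp, hφ, Finset.sum_eq_zero, sub_zero]
      intro i hi
      rw [hkill i (Finset.mem_range.mp hi), mul_zero]
    refine ⟨s.snoc v ψ hkill hψx hψv, s.snoc_ext _ _ _ _ _, ?_, fun _ => Nat.lt_succ_self _⟩
    have h1 : u = v + ∑ i ∈ Finset.range s.n, s.f i u • s.x i := by
      rw [hv, sub_add_cancel]
    rw [h1]
    exact add_mem (s.snoc_v _ _ _ _ _) ((s.snoc_ext _ _ _ _ _).X_le hsum)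

/-- add a functional -/
theorem addF (s : BS 𝕜 E) (h : StrongDual 𝕜 E) : ∃ t : BS 𝕜 E, Ext s t ∧ h ∈ t.F := by
  set ψ : StrongDual 𝕜 E := h - ∑ i ∈ Finset.range s.n, h (s.x i) • s.f i with hψ
  have hsum : ∑ i ∈ Finset.range s.n, h (s.x i) • s.f i ∈ s.F := by
    apply sum_mem
    intro i hi
    exact s.F.smul_mem _ (subset_span ⟨i, Finset.mem_range.mp hi, rfl⟩)
  have hψapp : ∀ y, ψ y = h y - ∑ i ∈ Finset.range s.n, h (s.x i) * s.f i y := by
    intro y
    simp [hψ]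
  have hψx : ∀ i < s.n, ψ (s.x i) = 0 := by
    intro i hi
    rw [hψapp, Finset.sum_eq_single i]
    · rw [s.bio i hi i hi, if_pos rfl, mul_one, sub_self]
    · intro j hj hji
      rw [s.bio j (Finset.mem_range.mp hj) i hi, if_neg hji, mul_zero]
    · intro h
      exact absurd (Finset.mem_range.mpr hi) h
  by_cases h0 : ψ = 0
  · refine ⟨s, Ext.refl s, ?_⟩
    have : h = ∑ i ∈ Finset.range s.n, h (s.x i) • s.f i := sub_eq_zero.mp h0
    rw [this]
    exact hsum
  · obtain ⟨w₀, hw₀⟩ : ∃ w, ψ w ≠ 0 := by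
      by_contra hall
      push Not at hall
      exact h0 (ContinuousLinearMap.ext hall)
    obtain ⟨w, hψw⟩ : ∃ w : E, ψ w = 1 := ⟨(ψ w₀)⁻¹ • w₀, by
      rw [map_smul, smul_eq_mul, inv_mul_cancel₀ hw₀]⟩
    set v : E := w - ∑ i ∈ Finset.range s.n, s.f i w • s.x i with hv
    have hkill : ∀ i < s.n, s.f i v = 0 := by
      intro i hi
      rw [hv, map_sub, map_sum, Finset.sum_eq_single i]
      · rw [map_smul, s.bio i hi i hi, if_pos rfl, smul_eq_mul, mul_one, sub_self]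
      · intro j hj hji
        rw [map_smul, s.bio i hi j (Finset.mem_range.mp hj), if_neg (Ne.symm hji), smul_zero]
      · intro h
        exact absurd (Finset.mem_range.mpr hi) h
    have hψv : ψ v = 1 := by
      rw [hv, map_sub, map_sum, hψw, Finset.sum_eq_zero, sub_zero]
      intro i hi
      rw [map_smul, hψx i (Finset.mem_range.mp hi), smul_zero]
    refine ⟨s.snoc v ψ hkill hψx hψv, s.snoc_ext _ _ _ _ _, ?_⟩
    have h1 : h = ψ + ∑ i ∈ Finset.range s.n, h (s.x i) • s.f i := by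
      rw [hψ, sub_add_cancel]
    rw [h1]
    exact add_mem (s.snoc_φ _ _ _ _ _) ((s.snoc_ext _ _ _ _ _).F_le hsum)

/-- one step of the Markushevich construction -/
theorem step (hinf : ¬ FiniteDimensional 𝕜 E) (s : BS 𝕜 E) (u : E) (h : StrongDual 𝕜 E) :
    ∃ t : BS 𝕜 E, Ext s t ∧ s.n < t.n ∧ u ∈ t.X ∧ h ∈ t.F := by
  obtain ⟨w, hw⟩ : ∃ w, w ∉ s.X := by
    by_contra hall
    push Not at hall
    apply hinf
    have htop : s.X = ⊤ := eq_top_iff.mpr fun v _ => hall v
    have hfin : FiniteDimensional 𝕜 s.X :=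
      FiniteDimensional.span_of_finite 𝕜 ((finite_Iio s.n).image s.x)
    rw [htop] at hfin
    exact Module.finite_def.mpr (Submodule.fg_iff_finiteDimensional _ |>.mpr hfin)
  obtain ⟨t1, h1, _, hlt⟩ := s.addX w
  obtain ⟨t2, h2, hu, _⟩ := t1.addX u
  obtain ⟨t3, h3, hh⟩ := t2.addF h
  refine ⟨t3, (h1.trans h2).trans h3, ?_, h3.X_le hu, hh⟩
  exact lt_of_lt_of_le (hlt hw) (h2.1.trans h3.1)

end BS

/-- Markushevich: a biorthogonal system with dense spans on both sides. -/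
theorem exists_bio (hinf : ¬ FiniteDimensional 𝕜 E) [SeparableSpace (StrongDual 𝕜 E)] :
    ∃ (x : ℕ → E) (f : ℕ → StrongDual 𝕜 E),
      (∀ i j, f i (x j) = if i = j then 1 else 0) ∧
      (span 𝕜 (range x)).topologicalClosure = ⊤ ∧
      (span 𝕜 (range f)).topologicalClosure = ⊤ := by
  obtain ⟨u, hu⟩ := exists_seq_dense (𝕜 := 𝕜) (E := E)
  obtain ⟨h, hh⟩ := exists_dense_seq (StrongDual 𝕜 E)
  have hstep : ∀ (s : BS 𝕜 E) (k : ℕ), ∃ t : BS 𝕜 E, BS.Ext s t ∧ s.n < t.n ∧ u k ∈ t.X ∧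
      h k ∈ t.F := fun s k => s.step hinf (u k) (h k)
  choose nxt hnxt using hstep
  let s₀ : BS 𝕜 E := ⟨0, fun _ => 0, fun _ => 0, fun i hi => absurd hi (Nat.not_lt_zero i)⟩
  let S : ℕ → BS 𝕜 E := fun k => Nat.rec s₀ (fun k s => nxt s k) k
  have hS : ∀ k, S (k + 1) = nxt (S k) k := fun k => rfl
  have hext1 : ∀ k, BS.Ext (S k) (S (k + 1)) := fun k => hS k ▸ (hnxt (S k) k).1
  have hext : ∀ k l, k ≤ l → BS.Ext (S k) (S l) := by
    intro k l hkl
    induction l, hkl using Nat.le_induction with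
    | base => exact BS.Ext.refl _
    | succ l _ ih => exact ih.trans (hext1 l)
  have hn : ∀ k, k ≤ (S k).n := by
    intro k
    induction k with
    | zero => exact Nat.zero_le _
    | succ k ih =>
      have := (hnxt (S k) k).2.1
      rw [← hS k] at this
      omega
  have hagx : ∀ k i, i < (S k).n → (S (i + 1)).x i = (S k).x i := by
    intro k i hi
    rcases le_total k (i + 1) with hk | hk
    · exact (hext k (i + 1) hk).2.1 i hi
    · exact ((hext (i + 1) k hk).2.1 i (by have := hn (i + 1); omega)).symm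
  have hagf : ∀ k i, i < (S k).n → (S (i + 1)).f i = (S k).f i := by
    intro k i hi
    rcases le_total k (i + 1) with hk | hk
    · exact (hext k (i + 1) hk).2.2 i hi
    · exact ((hext (i + 1) k hk).2.2 i (by have := hn (i + 1); omega)).symm
  refine ⟨fun i => (S (i + 1)).x i, fun i => (S (i + 1)).f i, ?_, ?_, ?_⟩
  · intro i j
    have hi : i < (S (i + j + 1)).n := by have := hn (i + j + 1); omega
    have hj : j < (S (i + j + 1)).n := by have := hn (i + j + 1); omega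
    simp only
    rw [hagf (i + j + 1) i hi, hagx (i + j + 1) j hj]
    exact (S (i + j + 1)).bio i hi j hj
  · rw [eq_top_iff, ← hu]
    apply Submodule.topologicalClosure_mono
    rw [span_le]
    rintro _ ⟨k, rfl⟩
    have h1 : u k ∈ (S (k + 1)).X := hS k ▸ (hnxt (S k) k).2.2.1
    refine (span_mono ?_ : (S (k + 1)).X ≤ _) h1
    rintro _ ⟨i, hi, rfl⟩
    exact ⟨i, hagx (k + 1) i hi⟩
  · have hd : (span 𝕜 (range h)).topologicalClosure = ⊤ := by
      rw [eq_top_iff]
      intro φ _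
      exact closure_mono subset_span (hh φ)
    rw [eq_top_iff, ← hd]
    apply Submodule.topologicalClosure_mono
    rw [span_le]
    rintro _ ⟨k, rfl⟩
    have h1 : h k ∈ (S (k + 1)).F := hS k ▸ (hnxt (S k) k).2.2.2
    refine (span_mono ?_ : (S (k + 1)).F ≤ _) h1
    rintro _ ⟨i, hi, rfl⟩
    exact ⟨i, hagf (k + 1) i hi⟩

end Pool.Agent.BioW
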